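import Pool.Agent.TH60.LR.Defs

set_option autoImplicit false

namespace Pool.Agent.TH75.LR

open Pool.Agent.TH60.LR

variable {V : Type} {adj : V → V → Prop}

theorem bdry_compl (hsym : ∀ x y, adj x y → adj y x) (A : Set V) :
    bdry adj Aᶜ = Prod.swap '' bdry adj A := by
  ext ⟨x, y⟩
  constructor
  · rintro ⟨h, hx, hy⟩
    exact ⟨(y, x), ⟨hsym _ _ h, not_not.mp hy, hx⟩, rfl⟩
  · rintro ⟨⟨a, b⟩, ⟨h, ha, hb⟩, hab⟩
    cases hab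
    exact ⟨hsym _ _ h, hb, fun h' => h' ha⟩

theorem fin_compl (hsym : ∀ x y, adj x y → adj y x) (A : Set V) :
    (bdry adj Aᶜ).Finite ↔ (bdry adj A).Finite := by
  rw [bdry_compl hsym]; exact Set.finite_image_iff Prod.swap_injective.injOn

theorem size_compl (hsym : ∀ x y, adj x y → adj y x) (A : Set V) :
    (bdry adj Aᶜ).ncard = (bdry adj A).ncard := by
  rw [bdry_compl hsym]; exact Set.ncard_image_of_injective _ Prod.swap_injective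

theorem bdry_inter_subset (A B : Set V) : bdry adj (A ∩ B) ⊆ bdry adj A ∪ bdry adj B := by
  rintro ⟨x, y⟩ ⟨h, hx, hy⟩
  by_cases hyA : y ∈ A
  · exact Or.inr ⟨h, hx.2, fun hyB => hy ⟨hyA, hyB⟩⟩
  · exact Or.inl ⟨h, hx.1, hyA⟩

theorem bdry_union_subset (A B : Set V) : bdry adj (A ∪ B) ⊆ bdry adj A ∪ bdry adj B := by
  rintro ⟨x, y⟩ ⟨h, hx, hy⟩
  rcases hx with hx | hx
  · exact Or.inl ⟨h, hx, fun h' => hy (Or.inl h')⟩
  · exact Or.inr ⟨h, hx, fun h' => hy (Or.inr h')⟩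

theorem submod {A B : Set V} (hA : (bdry adj A).Finite) (hB : (bdry adj B).Finite) :
    (bdry adj (A ∩ B)).ncard + (bdry adj (A ∪ B)).ncard ≤
      (bdry adj A).ncard + (bdry adj B).ncard := by
  have hAB := hA.union hB
  have f1 : (bdry adj (A ∩ B)).Finite := hAB.subset (bdry_inter_subset A B)
  have f2 : (bdry adj (A ∪ B)).Finite := hAB.subset (bdry_union_subset A B)
  have h1 := Set.ncard_union_add_ncard_inter (bdry adj (A ∩ B)) (bdry adj (A ∪ B)) f1 f2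
  have h2 := Set.ncard_union_add_ncard_inter (bdry adj A) (bdry adj B) hA hB
  have h3 : (bdry adj (A ∩ B) ∪ bdry adj (A ∪ B)).ncard ≤ (bdry adj A ∪ bdry adj B).ncard :=
    Set.ncard_le_ncard (Set.union_subset (bdry_inter_subset A B) (bdry_union_subset A B)) hAB
  have h4 : (bdry adj (A ∩ B) ∩ bdry adj (A ∪ B)).ncard ≤ (bdry adj A ∩ bdry adj B).ncard := by
    apply Set.ncard_le_ncard _ (hA.inter_of_left _)
    rintro ⟨x, y⟩ ⟨⟨h, hx, _⟩, ⟨_, _, hy⟩⟩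
    exact ⟨⟨h, hx.1, fun h' => hy (Or.inl h')⟩, ⟨h, hx.2, fun h' => hy (Or.inr h')⟩⟩
  omega

/-- crossing sets -/
def Cross (A B : Set V) : Prop :=
  (∃ x, x ∈ A ∧ x ∈ B) ∧ (∃ x, x ∈ A ∧ x ∉ B) ∧ (∃ x, x ∉ A ∧ x ∈ B) ∧ (∃ x, x ∉ A ∧ x ∉ B)

theorem nested_of_not_cross {A B : Set V} (h : ¬ Cross A B) : Nested A B := by
  by_contra hn
  unfold Nested at hn
  push Not at hn
  obtain ⟨h1, h2, h3, h4⟩ := hn
  obtain ⟨a, ha, ha'⟩ := Set.not_subset.mp h1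
  obtain ⟨b, hb, hb'⟩ := Set.not_subset.mp h2
  obtain ⟨c, hc, hc'⟩ := Set.not_subset.mp h3
  obtain ⟨d, hd, hd'⟩ := Set.not_subset.mp h4
  exact h ⟨⟨c, hc, not_not.mp hc'⟩, ⟨a, ha, ha'⟩, ⟨b, hb', hb⟩, ⟨d, hd, hd'⟩⟩

theorem cross_symm {A B : Set V} (h : Cross A B) : Cross B A := by
  obtain ⟨⟨a, ha⟩, ⟨b, hb⟩, ⟨c, hc⟩, ⟨d, hd⟩⟩ := h
  exact ⟨⟨a, ha.2, ha.1⟩, ⟨c, hc.2, hc.1⟩, ⟨b, hb.2, hb.1⟩, ⟨d, hd.2, hd.1⟩⟩

theorem cross_compl_left {A B : Set V} : Cross Aᶜ B ↔ Cross A B := by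
  constructor
  · rintro ⟨⟨a, ha⟩, ⟨b, hb⟩, ⟨c, hc⟩, ⟨d, hd⟩⟩
    exact ⟨⟨c, not_not.mp hc.1, hc.2⟩, ⟨d, not_not.mp hd.1, hd.2⟩, ⟨a, ha.1, ha.2⟩, ⟨b, hb.1, hb.2⟩⟩
  · rintro ⟨⟨a, ha⟩, ⟨b, hb⟩, ⟨c, hc⟩, ⟨d, hd⟩⟩
    exact ⟨⟨c, hc.1, hc.2⟩, ⟨d, hd.1, hd.2⟩, ⟨a, not_not.mpr ha.1, ha.2⟩, ⟨b, not_not.mpr hb.1, hb.2⟩⟩

theorem cross_compl_right {A B : Set V} : Cross A Bᶜ ↔ Cross A B :=
  ⟨fun h => cross_symm (cross_compl_left.mp (cross_symm h)),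
    fun h => cross_symm (cross_compl_left.mpr (cross_symm h))⟩

theorem cross_inter {A B E : Set V} (hAB : ∃ x, x ∉ A ∧ x ∉ B) (h : Cross (A ∩ B) E) :
    Cross A E ∨ Cross B E := by
  obtain ⟨⟨a, ha, ha'⟩, ⟨b, hb, hb'⟩, ⟨c, hc, hc'⟩, ⟨d, hd, hd'⟩⟩ := h
  obtain ⟨x, hx, hx'⟩ := hAB
  by_cases hxE : x ∈ E
  · by_cases hdA : d ∈ A
    · right
      exact ⟨⟨a, ha.2, ha'⟩, ⟨b, hb.2, hb'⟩, ⟨x, hx', hxE⟩, ⟨d, fun h => hd ⟨hdA, h⟩, hd'⟩⟩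
    · left
      exact ⟨⟨a, ha.1, ha'⟩, ⟨b, hb.1, hb'⟩, ⟨x, hx, hxE⟩, ⟨d, hdA, hd'⟩⟩
  · by_cases hcA : c ∈ A
    · right
      exact ⟨⟨a, ha.2, ha'⟩, ⟨b, hb.2, hb'⟩, ⟨c, fun h => hc ⟨hcA, h⟩, hc'⟩, ⟨x, hx', hxE⟩⟩
    · left
      exact ⟨⟨a, ha.1, ha'⟩, ⟨b, hb.1, hb'⟩, ⟨c, hcA, hc'⟩, ⟨x, hx, hxE⟩⟩

theorem cross_both {A B E : Set V} (h : Cross (A ∩ B) E) (h' : Cross (Aᶜ ∩ Bᶜ) E) :
    Cross A E ∧ Cross B E := by
  obtain ⟨⟨a, ha, ha'⟩, ⟨b, hb, hb'⟩, _, _⟩ := h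
  obtain ⟨⟨c, hc, hc'⟩, ⟨d, hd, hd'⟩, _, _⟩ := h'
  exact ⟨⟨⟨a, ha.1, ha'⟩, ⟨b, hb.1, hb'⟩, ⟨c, hc.1, hc'⟩, ⟨d, hd.1, hd'⟩⟩,
    ⟨⟨a, ha.2, ha'⟩, ⟨b, hb.2, hb'⟩, ⟨c, hc.2, hc'⟩, ⟨d, hd.2, hd'⟩⟩⟩

/-- crossing number inequality -/
theorem mu_lt {M : Set (Set V)} {A B : Set V} (hAM : A ∈ M)
    (fA : {E | E ∈ M ∧ Cross A E}.Finite) (fB : {E | E ∈ M ∧ Cross B E}.Finite)
    (h : Cross A B) :
    {E | E ∈ M ∧ Cross (A ∩ B) E}.ncard + {E | E ∈ M ∧ Cross (Aᶜ ∩ Bᶜ) E}.ncard <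
      {E | E ∈ M ∧ Cross A E}.ncard + {E | E ∈ M ∧ Cross B E}.ncard := by
  have hsub1 : {E | E ∈ M ∧ Cross (A ∩ B) E} ⊆
      ({E | E ∈ M ∧ Cross A E} ∪ {E | E ∈ M ∧ Cross B E}) \ {A} := by
    rintro E ⟨hE, hc⟩
    refine ⟨?_, ?_⟩
    · rcases cross_inter h.2.2.2 hc with h' | h'
      · exact Or.inl ⟨hE, h'⟩
      · exact Or.inr ⟨hE, h'⟩
    · intro hEA
      rw [Set.mem_singleton_iff] at hEA
      obtain ⟨b, hb, hb'⟩ := hc.2.1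
      exact hb' (hEA ▸ hb.1)
  have hsub2 : {E | E ∈ M ∧ Cross (Aᶜ ∩ Bᶜ) E} ⊆
      ({E | E ∈ M ∧ Cross A E} ∪ {E | E ∈ M ∧ Cross B E}) \ {A} := by
    rintro E ⟨hE, hc⟩
    refine ⟨?_, ?_⟩
    · obtain ⟨x, hx, hx'⟩ := h.1
      rcases cross_inter ⟨x, not_not.mpr hx, not_not.mpr hx'⟩ hc with h' | h'
      · exact Or.inl ⟨hE, cross_compl_left.mp h'⟩
      · exact Or.inr ⟨hE, cross_compl_left.mp h'⟩
    · intro hEA
      rw [Set.mem_singleton_iff] at hEA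
      obtain ⟨a, ha, ha'⟩ := hc.1
      exact ha.1 (hEA ▸ ha')
  have fAB := fA.union fB
  have f1 := (fAB.sdiff (t := {A})).subset hsub1
  have f2 := (fAB.sdiff (t := {A})).subset hsub2
  have h1 := Set.ncard_union_add_ncard_inter {E | E ∈ M ∧ Cross (A ∩ B) E}
    {E | E ∈ M ∧ Cross (Aᶜ ∩ Bᶜ) E} f1 f2
  have h2 := Set.ncard_union_add_ncard_inter {E | E ∈ M ∧ Cross A E} {E | E ∈ M ∧ Cross B E} fA fB
  have h3 := Set.ncard_le_ncard (Set.union_subset hsub1 hsub2) (fAB.sdiff)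
  have hmem : A ∈ ({E | E ∈ M ∧ Cross A E} ∪ {E | E ∈ M ∧ Cross B E}) :=
    Or.inr ⟨hAM, cross_symm h⟩
  have h4 := Set.ncard_sdiff_singleton_add_one hmem fAB
  have h5 : ({E | E ∈ M ∧ Cross (A ∩ B) E} ∩ {E | E ∈ M ∧ Cross (Aᶜ ∩ Bᶜ) E}).ncard ≤
      ({E | E ∈ M ∧ Cross A E} ∩ {E | E ∈ M ∧ Cross B E}).ncard := by
    apply Set.ncard_le_ncard _ (fA.inter_of_left _)
    rintro E ⟨⟨hE, hc⟩, ⟨_, hc'⟩⟩
    obtain ⟨k1, k2⟩ := cross_both hc hc'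
    exact ⟨⟨hE, k1⟩, ⟨hE, k2⟩⟩
  omega

/-- filter deciding all sets of finite boundary -/
def Dec (adj : V → V → Prop) (φ : Filter V) : Prop :=
  φ.NeBot ∧ ∀ A : Set V, (bdry adj A).Finite → A ∈ φ ∨ Aᶜ ∈ φ

def Sep (adj : V → V → Prop) (φ ψ : Filter V) (A : Set V) : Prop :=
  (bdry adj A).Finite ∧ A ∈ φ ∧ Aᶜ ∈ ψ

def IsMin (adj : V → V → Prop) (φ ψ : Filter V) (A : Set V) : Prop :=
  Sep adj φ ψ A ∧ ∀ B, Sep adj φ ψ B → (bdry adj A).ncard ≤ (bdry adj B).ncard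

def PP (adj : V → V → Prop) (n₀ : ℕ) (φ ψ : Filter V) : Prop :=
  Dec adj φ ∧ Dec adj ψ ∧ ∃ A, Sep adj φ ψ A ∧ (bdry adj A).ncard ≤ n₀

def MM (adj : V → V → Prop) (n₀ : ℕ) : Set (Set V) :=
  {A | ∃ φ ψ, PP adj n₀ φ ψ ∧ IsMin adj φ ψ A}

noncomputable def mu (adj : V → V → Prop) (n₀ : ℕ) (A : Set V) : ℕ :=
  {E | E ∈ MM adj n₀ ∧ Cross A E}.ncard

def Opt (adj : V → V → Prop) (n₀ : ℕ) (φ ψ : Filter V) (A : Set V) : Prop :=
  PP adj n₀ φ ψ ∧ IsMin adj φ ψ A ∧ ∀ B, IsMin adj φ ψ B → mu adj n₀ A ≤ mu adj n₀ B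

def EE (adj : V → V → Prop) (n₀ : ℕ) : Set (Set V) := {A | ∃ φ ψ, Opt adj n₀ φ ψ A}

theorem mu_compl (n₀ : ℕ) (A : Set V) : mu adj n₀ Aᶜ = mu adj n₀ A := by
  unfold mu; congr 1; ext E; simp only [cross_compl_left]

theorem Sep.swap (hsym : ∀ x y, adj x y → adj y x) {φ ψ : Filter V} {A : Set V}
    (h : Sep adj φ ψ A) : Sep adj ψ φ Aᶜ :=
  ⟨(fin_compl hsym A).mpr h.1, h.2.2, by rw [compl_compl]; exact h.2.1⟩

theorem IsMin.swap (hsym : ∀ x y, adj x y → adj y x) {φ ψ : Filter V} {A : Set V}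
    (h : IsMin adj φ ψ A) : IsMin adj ψ φ Aᶜ := by
  refine ⟨h.1.swap hsym, fun B hB => ?_⟩
  have := h.2 Bᶜ (hB.swap hsym)
  rw [size_compl hsym] at this ⊢
  exact this

theorem PP.swap (hsym : ∀ x y, adj x y → adj y x) {n₀ : ℕ} {φ ψ : Filter V}
    (h : PP adj n₀ φ ψ) : PP adj n₀ ψ φ := by
  obtain ⟨h1, h2, A, hA, hA'⟩ := h
  exact ⟨h2, h1, Aᶜ, hA.swap hsym, by rw [size_compl hsym]; exact hA'⟩

theorem MM_compl (hsym : ∀ x y, adj x y → adj y x) {n₀ : ℕ} {A : Set V} (h : A ∈ MM adj n₀) :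
    Aᶜ ∈ MM adj n₀ := by
  obtain ⟨φ, ψ, h1, h2⟩ := h
  exact ⟨ψ, φ, h1.swap hsym, h2.swap hsym⟩

theorem Opt.swap (hsym : ∀ x y, adj x y → adj y x) {n₀ : ℕ} {φ ψ : Filter V} {A : Set V}
    (h : Opt adj n₀ φ ψ A) : Opt adj n₀ ψ φ Aᶜ := by
  obtain ⟨h1, h2, h3⟩ := h
  refine ⟨h1.swap hsym, h2.swap hsym, fun B hB => ?_⟩
  have := h3 Bᶜ (hB.swap hsym)
  rw [mu_compl] at this ⊢
  exact this

theorem MM_size {n₀ : ℕ} {A : Set V} (h : A ∈ MM adj n₀) :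
    (bdry adj A).Finite ∧ (bdry adj A).ncard ≤ n₀ := by
  obtain ⟨φ, ψ, ⟨_, _, B, hB, hB'⟩, h2⟩ := h
  exact ⟨h2.1.1, (h2.2 B hB).trans hB'⟩

theorem MM_nonempty {n₀ : ℕ} {A : Set V} (h : A ∈ MM adj n₀) : A.Nonempty := by
  obtain ⟨φ, ψ, ⟨h1, _, _⟩, h2⟩ := h
  have := h1.1
  exact Filter.nonempty_of_mem h2.1.2.1

theorem bdry_nonempty (hcon : ∀ x y, Relation.ReflTransGen adj x y) {A : Set V}
    (h : A.Nonempty) (h' : Aᶜ.Nonempty) : (bdry adj A).Nonempty := by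
  obtain ⟨x, hx⟩ := h
  obtain ⟨y, hy⟩ := h'
  by_contra hne
  have key : ∀ z, Relation.ReflTransGen adj x z → z ∈ A := by
    intro z hz
    induction hz with
    | refl => exact hx
    | @tail b c _ hbc ih =>
      by_contra hc
      exact hne ⟨(b, c), hbc, ih, hc⟩
  exact hy (key y (hcon x y))

theorem MM_conn (hsym : ∀ x y, adj x y → adj y x) (hcon : ∀ x y, Relation.ReflTransGen adj x y)
    {n₀ : ℕ} {A : Set V} (h : A ∈ MM adj n₀) : Conn adj A := by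
  intro B hB hBne hABne
  by_contra hne
  push Not at hne
  obtain ⟨φ, ψ, ⟨h1, h1', _⟩, h2⟩ := h
  have := h1.1
  have := h1'.1
  obtain ⟨a0, ha0⟩ : Aᶜ.Nonempty := Filter.nonempty_of_mem h2.1.2.2
  have s1 : bdry adj B ⊆ bdry adj A := by
    rintro ⟨x, y⟩ ⟨hxy, hx, hy⟩
    exact ⟨hxy, hB hx, fun hyA => hne x hx y ⟨hyA, hy⟩ hxy⟩
  have s2 : bdry adj (A \ B) ⊆ bdry adj A := by
    rintro ⟨x, y⟩ ⟨hxy, hx, hy⟩
    refine ⟨hxy, hx.1, fun hyA => ?_⟩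
    by_cases hyB : y ∈ B
    · exact hne y hyB x hx (hsym _ _ hxy)
    · exact hy ⟨hyA, hyB⟩
  have n1 : (bdry adj B).Nonempty := bdry_nonempty hcon hBne ⟨a0, fun h => ha0 (hB h)⟩
  have n2 : (bdry adj (A \ B)).Nonempty := bdry_nonempty hcon hABne ⟨a0, fun h => ha0 h.1⟩
  have l1 : (bdry adj B).ncard < (bdry adj A).ncard := by
    apply Set.ncard_lt_ncard _ h2.1.1
    refine ⟨s1, fun hs => ?_⟩
    obtain ⟨p, hp⟩ := n2
    exact hp.2.1.2 (hs (s2 hp)).2.1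
  have l2 : (bdry adj (A \ B)).ncard < (bdry adj A).ncard := by
    apply Set.ncard_lt_ncard _ h2.1.1
    refine ⟨s2, fun hs => ?_⟩
    obtain ⟨p, hp⟩ := n1
    exact (hs (s1 hp)).2.1.2 hp.2.1
  rcases h1.2 B (h2.1.1.subset s1) with hφ | hφ
  · have hs : Sep adj φ ψ B := ⟨h2.1.1.subset s1, hφ,
      Filter.mem_of_superset h2.1.2.2 (Set.compl_subset_compl.mpr hB)⟩
    exact absurd (h2.2 B hs) (not_le.mpr l1)
  · have hs : Sep adj φ ψ (A \ B) := ⟨h2.1.1.subset s2, Filter.inter_mem h2.1.2.1 hφ,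
      Filter.mem_of_superset h2.1.2.2 (Set.compl_subset_compl.mpr Set.sdiff_subset)⟩
    exact absurd (h2.2 _ hs) (not_le.mpr l2)

theorem MM_sep_finite (htight : TightFinite) (hsym : ∀ x y, adj x y → adj y x)
    (hcon : ∀ x y, Relation.ReflTransGen adj x y) (n₀ : ℕ) (x y : V) :
    {A | A ∈ MM adj n₀ ∧ x ∈ A ∧ y ∉ A}.Finite := by
  apply (htight V n₀ adj hsym x y).subset
  rintro A ⟨hA, hx, hy⟩
  exact ⟨MM_conn hsym hcon hA, MM_conn hsym hcon (MM_compl hsym hA), hx, hy, (MM_size hA).1,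
    (MM_size hA).2⟩

theorem MM_cross_finite (htight : TightFinite) (hsym : ∀ x y, adj x y → adj y x)
    (hcon : ∀ x y, Relation.ReflTransGen adj x y) {n₀ : ℕ} {A : Set V}
    (hA : (bdry adj A).Finite) : {E | E ∈ MM adj n₀ ∧ Cross A E}.Finite := by
  have hfin : (Prod.fst '' bdry adj A).Finite := hA.image _
  have key : {E | E ∈ MM adj n₀ ∧ Cross A E} ⊆
      ⋃ s ∈ Prod.fst '' bdry adj A, ⋃ s' ∈ Prod.fst '' bdry adj A,
        {E | E ∈ MM adj n₀ ∧ s ∈ E ∧ s' ∉ E} := by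
    rintro E ⟨hE, hc⟩
    obtain ⟨⟨a, ha, ha'⟩, ⟨b, hb, hb'⟩, ⟨c, hc, hc'⟩, ⟨d, hd, hd'⟩⟩ := hc
    obtain ⟨x, hx, y, hy, hxy⟩ := MM_conn hsym hcon hE (E ∩ A) Set.inter_subset_left
      ⟨a, ha', ha⟩ ⟨c, hc', fun h => hc h.2⟩
    obtain ⟨x', hx', y', hy', hxy'⟩ := MM_conn hsym hcon (MM_compl hsym hE) (Eᶜ ∩ A)
      Set.inter_subset_left ⟨b, hb', hb⟩ ⟨d, hd', fun h => hd h.2⟩
    rw [Set.mem_iUnion₂]
    refine ⟨x, ⟨(x, y), ⟨hxy, hx.2, fun h => hy.2 ⟨hy.1, h⟩⟩, rfl⟩, ?_⟩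
    rw [Set.mem_iUnion₂]
    exact ⟨x', ⟨(x', y'), ⟨hxy', hx'.2, fun h => hy'.2 ⟨hy'.1, h⟩⟩, rfl⟩, hE, hx.1, hx'.1⟩
  apply Set.Finite.subset _ key
  apply hfin.biUnion
  intro s _
  apply hfin.biUnion
  intro s' _
  exact MM_sep_finite htight hsym hcon n₀ s s'

/-! ### automorphisms -/

theorem bdry_image (σ : Equiv.Perm V) (hσ : ∀ x y, adj (σ x) (σ y) ↔ adj x y) (A : Set V) :
    bdry adj (σ '' A) = Prod.map σ σ '' bdry adj A := by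
  ext ⟨x, y⟩
  constructor
  · rintro ⟨h, ⟨a, ha, hax⟩, hy⟩
    refine ⟨(a, σ.symm y), ⟨?_, ha, ?_⟩, ?_⟩
    · show adj a (σ.symm y)
      rw [← hσ, hax, Equiv.apply_symm_apply]; exact h
    · intro h'; exact hy ⟨σ.symm y, h', Equiv.apply_symm_apply _ _⟩
    · simp only [Prod.map_apply, Equiv.apply_symm_apply]
      exact Prod.ext hax rfl
  · rintro ⟨⟨a, b⟩, ⟨h, ha, hb⟩, hab⟩
    simp only [Prod.map_apply, Prod.mk.injEq] at hab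
    obtain ⟨rfl, rfl⟩ := hab
    refine ⟨(hσ a b).mpr h, ⟨a, ha, rfl⟩, ?_⟩
    rintro ⟨c, hc, hcb⟩
    exact hb (σ.injective hcb ▸ hc)

theorem fin_image (σ : Equiv.Perm V) (hσ : ∀ x y, adj (σ x) (σ y) ↔ adj x y) (A : Set V) :
    (bdry adj (σ '' A)).Finite ↔ (bdry adj A).Finite := by
  rw [bdry_image σ hσ]
  exact Set.finite_image_iff (σ.injective.prodMap σ.injective).injOn

theorem size_image (σ : Equiv.Perm V) (hσ : ∀ x y, adj (σ x) (σ y) ↔ adj x y) (A : Set V) :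
    (bdry adj (σ '' A)).ncard = (bdry adj A).ncard := by
  rw [bdry_image σ hσ]
  exact Set.ncard_image_of_injective _ (σ.injective.prodMap σ.injective)

theorem symm_aut {σ : Equiv.Perm V} (hσ : ∀ x y, adj (σ x) (σ y) ↔ adj x y) :
    ∀ x y, adj (σ.symm x) (σ.symm y) ↔ adj x y := by
  intro x y
  rw [← hσ, Equiv.apply_symm_apply, Equiv.apply_symm_apply]

theorem map_symm_map (σ : Equiv.Perm V) (φ : Filter V) : Filter.map σ.symm (Filter.map σ φ) = φ := by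
  rw [Filter.map_map, Equiv.symm_comp_self, Filter.map_id]

theorem Sep.image {σ : Equiv.Perm V} (hσ : ∀ x y, adj (σ x) (σ y) ↔ adj x y) {φ ψ : Filter V}
    {A : Set V} (h : Sep adj φ ψ A) : Sep adj (Filter.map σ φ) (Filter.map σ ψ) (σ '' A) := by
  refine ⟨(fin_image σ hσ A).mpr h.1, Filter.image_mem_map h.2.1, ?_⟩
  rw [← Set.image_compl_eq σ.bijective]
  exact Filter.image_mem_map h.2.2

theorem Sep.of_image {σ : Equiv.Perm V} (hσ : ∀ x y, adj (σ x) (σ y) ↔ adj x y) {φ ψ : Filter V}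
    {B : Set V} (h : Sep adj (Filter.map σ φ) (Filter.map σ ψ) B) :
    Sep adj φ ψ (σ.symm '' B) := by
  have := h.image (symm_aut hσ)
  rwa [map_symm_map, map_symm_map] at this

theorem Dec.map {σ : Equiv.Perm V} (hσ : ∀ x y, adj (σ x) (σ y) ↔ adj x y) {φ : Filter V}
    (h : Dec adj φ) : Dec adj (Filter.map σ φ) := by
  have := h.1
  refine ⟨Filter.map_neBot, fun A hA => ?_⟩
  have h1 : (bdry adj (σ ⁻¹' A)).Finite := by
    rw [← Equiv.image_symm_eq_preimage]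
    exact (fin_image σ.symm (symm_aut hσ) A).mpr hA
  exact h.2 _ h1

theorem PP.map {σ : Equiv.Perm V} (hσ : ∀ x y, adj (σ x) (σ y) ↔ adj x y) {n₀ : ℕ}
    {φ ψ : Filter V} (h : PP adj n₀ φ ψ) : PP adj n₀ (Filter.map σ φ) (Filter.map σ ψ) := by
  obtain ⟨h1, h2, A, hA, hA'⟩ := h
  exact ⟨h1.map hσ, h2.map hσ, σ '' A, hA.image hσ, by rw [size_image σ hσ]; exact hA'⟩

theorem IsMin.image {σ : Equiv.Perm V} (hσ : ∀ x y, adj (σ x) (σ y) ↔ adj x y) {φ ψ : Filter V}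
    {A : Set V} (h : IsMin adj φ ψ A) :
    IsMin adj (Filter.map σ φ) (Filter.map σ ψ) (σ '' A) := by
  refine ⟨h.1.image hσ, fun B hB => ?_⟩
  have := h.2 _ (hB.of_image hσ)
  rw [size_image σ hσ]
  rwa [size_image σ.symm (symm_aut hσ)] at this

theorem IsMin.of_image {σ : Equiv.Perm V} (hσ : ∀ x y, adj (σ x) (σ y) ↔ adj x y)
    {φ ψ : Filter V} {B : Set V} (h : IsMin adj (Filter.map σ φ) (Filter.map σ ψ) B) :
    IsMin adj φ ψ (σ.symm '' B) := by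
  have := h.image (symm_aut hσ)
  rwa [map_symm_map, map_symm_map] at this

theorem MM_image {σ : Equiv.Perm V} (hσ : ∀ x y, adj (σ x) (σ y) ↔ adj x y) {n₀ : ℕ} {A : Set V}
    (h : A ∈ MM adj n₀) : σ '' A ∈ MM adj n₀ := by
  obtain ⟨φ, ψ, h1, h2⟩ := h
  exact ⟨_, _, h1.map hσ, h2.image hσ⟩

theorem cross_image (σ : Equiv.Perm V) {A E : Set V} (h : Cross A E) : Cross (σ '' A) (σ '' E) := by
  obtain ⟨⟨a, ha, ha'⟩, ⟨b, hb, hb'⟩, ⟨c, hc, hc'⟩, ⟨d, hd, hd'⟩⟩ := h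
  have key : ∀ {x : V} {S : Set V}, σ x ∈ σ '' S ↔ x ∈ S := fun {x S} =>
    σ.injective.mem_set_image
  refine ⟨⟨σ a, ?_, ?_⟩, ⟨σ b, ?_, ?_⟩, ⟨σ c, ?_, ?_⟩, ⟨σ d, ?_, ?_⟩⟩ <;> rw [key] <;> assumption

theorem mu_image {σ : Equiv.Perm V} (hσ : ∀ x y, adj (σ x) (σ y) ↔ adj x y) (n₀ : ℕ)
    (A : Set V) : mu adj n₀ (σ '' A) = mu adj n₀ A := by
  unfold mu
  rw [← Set.ncard_image_of_injective {E | E ∈ MM adj n₀ ∧ Cross A E}
    (Set.image_injective.mpr σ.injective)]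
  congr 1
  ext E
  constructor
  · rintro ⟨hE, hc⟩
    refine ⟨σ.symm '' E, ⟨MM_image (symm_aut hσ) hE, ?_⟩, ?_⟩
    · have := cross_image σ.symm hc
      rwa [← Set.image_comp, Equiv.symm_comp_self, Set.image_id] at this
    · show σ '' (σ.symm '' E) = E
      rw [← Set.image_comp, Equiv.self_comp_symm, Set.image_id]
  · rintro ⟨F, ⟨hF, hc⟩, rfl⟩
    exact ⟨MM_image hσ hF, cross_image σ hc⟩

theorem Opt.image {σ : Equiv.Perm V} (hσ : ∀ x y, adj (σ x) (σ y) ↔ adj x y) {n₀ : ℕ}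
    {φ ψ : Filter V} {A : Set V} (h : Opt adj n₀ φ ψ A) :
    Opt adj n₀ (Filter.map σ φ) (Filter.map σ ψ) (σ '' A) := by
  obtain ⟨h1, h2, h3⟩ := h
  refine ⟨h1.map hσ, h2.image hσ, fun B hB => ?_⟩
  have := h3 _ (hB.of_image hσ)
  rw [mu_image hσ]
  rwa [mu_image (symm_aut hσ)] at this

/-! ### nestedness -/

/-- unoriented separation -/
def USep (adj : V → V → Prop) (φ ψ : Filter V) (A : Set V) : Prop :=
  Sep adj φ ψ A ∨ Sep adj φ ψ Aᶜ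

theorem Opt.size_le (hsym : ∀ x y, adj x y → adj y x) {n₀ : ℕ} {φ ψ : Filter V} {A C : Set V}
    (h : Opt adj n₀ φ ψ A) (hC : USep adj φ ψ C) :
    (bdry adj A).ncard ≤ (bdry adj C).ncard := by
  rcases hC with hC | hC
  · exact h.2.1.2 C hC
  · have := h.2.1.2 _ hC
    rwa [size_compl hsym] at this

theorem Opt.mu_le (hsym : ∀ x y, adj x y → adj y x) {n₀ : ℕ} {φ ψ : Filter V} {A C : Set V}
    (h : Opt adj n₀ φ ψ A) (hC : USep adj φ ψ C)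
    (hs : (bdry adj C).ncard ≤ (bdry adj A).ncard) : mu adj n₀ A ≤ mu adj n₀ C := by
  rcases hC with hC | hC
  · exact h.2.2 C ⟨hC, fun B hB => hs.trans (h.2.1.2 B hB)⟩
  · rw [← mu_compl n₀ C]
    refine h.2.2 Cᶜ ⟨hC, fun B hB => ?_⟩
    rw [size_compl hsym]
    exact hs.trans (h.2.1.2 B hB)

theorem Opt.mem_MM {n₀ : ℕ} {φ ψ : Filter V} {A : Set V} (h : Opt adj n₀ φ ψ A) :
    A ∈ MM adj n₀ := ⟨φ, ψ, h.1, h.2.1⟩

/-- opposite corners inequality, first diagonal -/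
theorem corner1 (htight : TightFinite) (hsym : ∀ x y, adj x y → adj y x)
    (hcon : ∀ x y, Relation.ReflTransGen adj x y) {n₀ : ℕ} {A B : Set V}
    (hA : A ∈ MM adj n₀) (hB : B ∈ MM adj n₀) (h : Cross A B) :
    (bdry adj (A ∩ B)).ncard + (bdry adj (Aᶜ ∩ Bᶜ)).ncard ≤
      (bdry adj A).ncard + (bdry adj B).ncard ∧
    mu adj n₀ (A ∩ B) + mu adj n₀ (Aᶜ ∩ Bᶜ) < mu adj n₀ A + mu adj n₀ B := by
  constructor
  · have := submod (MM_size hA).1 (MM_size hB).1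
    rw [← Set.compl_union, size_compl hsym]
    exact this
  · exact mu_lt hA (MM_cross_finite htight hsym hcon (MM_size hA).1)
      (MM_cross_finite htight hsym hcon (MM_size hB).1) h

theorem corner2 (htight : TightFinite) (hsym : ∀ x y, adj x y → adj y x)
    (hcon : ∀ x y, Relation.ReflTransGen adj x y) {n₀ : ℕ} {A B : Set V}
    (hA : A ∈ MM adj n₀) (hB : B ∈ MM adj n₀) (h : Cross A B) :
    (bdry adj (A ∩ Bᶜ)).ncard + (bdry adj (Aᶜ ∩ B)).ncard ≤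
      (bdry adj A).ncard + (bdry adj B).ncard ∧
    mu adj n₀ (A ∩ Bᶜ) + mu adj n₀ (Aᶜ ∩ B) < mu adj n₀ A + mu adj n₀ B := by
  have := corner1 htight hsym hcon hA (MM_compl hsym hB) (cross_compl_right.mpr h)
  rwa [size_compl hsym, mu_compl, compl_compl] at this

/-- `p` and `q` cannot be separated by opposite corners. -/
theorem no_opp (hsym : ∀ x y, adj x y → adj y x) {n₀ : ℕ} {φ ψ φ' ψ' : Filter V}
    {A B C D : Set V} (hA : Opt adj n₀ φ ψ A) (hB : Opt adj n₀ φ' ψ' B)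
    (h1 : (bdry adj C).ncard + (bdry adj D).ncard ≤ (bdry adj A).ncard + (bdry adj B).ncard)
    (h2 : mu adj n₀ C + mu adj n₀ D < mu adj n₀ A + mu adj n₀ B)
    (hC : USep adj φ ψ C) (hD : USep adj φ' ψ' D) : False := by
  have k1 := hA.size_le hsym hC
  have k2 := hB.size_le hsym hD
  have k3 := hA.mu_le hsym hC (by omega)
  have k4 := hB.mu_le hsym hD (by omega)
  omega

/-- case 2 -/
theorem no_diag (hsym : ∀ x y, adj x y → adj y x) {n₀ : ℕ} {φ ψ φ' ψ' : Filter V}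
    {A B C D : Set V} (hA : Opt adj n₀ φ ψ A) (hB : Opt adj n₀ φ' ψ' B)
    (h1 : (bdry adj C).ncard + (bdry adj D).ncard ≤ (bdry adj A).ncard + (bdry adj B).ncard)
    (h2 : mu adj n₀ C + mu adj n₀ D < mu adj n₀ A + mu adj n₀ B)
    (hBp : USep adj φ ψ B) (hAq : USep adj φ' ψ' A)
    (hC : USep adj φ' ψ' C) (hD : USep adj φ' ψ' D) : False := by
  have k1 := hA.size_le hsym hBp
  have k2 := hB.size_le hsym hAq
  have k3 := hB.size_le hsym hC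
  have k4 := hB.size_le hsym hD
  have k5 := hB.mu_le hsym hC (by omega)
  have k6 := hB.mu_le hsym hD (by omega)
  have k7 := hA.mu_le hsym hBp (by omega)
  omega

theorem usep_left {φ ψ : Filter V} {A B : Set V} (fA : (bdry adj A).Finite)
    (fB : (bdry adj B).Finite) (h1 : A ∈ φ) (h2 : Aᶜ ∈ ψ) (h3 : B ∈ φ) :
    USep adj φ ψ (A ∩ B) :=
  Or.inl ⟨(fA.union fB).subset (bdry_inter_subset A B), Filter.inter_mem h1 h3,
    Filter.mem_of_superset h2 (Set.compl_subset_compl.mpr Set.inter_subset_left)⟩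

theorem usep_right (hsym : ∀ x y, adj x y → adj y x) {φ ψ : Filter V} {A B : Set V}
    (fA : (bdry adj A).Finite)
    (fB : (bdry adj B).Finite) (h1 : Aᶜ ∈ φ) (h2 : A ∈ ψ) (h3 : B ∈ ψ) :
    USep adj φ ψ (A ∩ B) := by
  right
  refine ⟨(fin_compl hsym _).mpr ((fA.union fB).subset (bdry_inter_subset A B)),
    Filter.mem_of_superset h1 (Set.compl_subset_compl.mpr Set.inter_subset_left), ?_⟩
  rw [compl_compl]
  exact Filter.inter_mem h2 h3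

theorem EE_nested (htight : TightFinite) (hsym : ∀ x y, adj x y → adj y x)
    (hcon : ∀ x y, Relation.ReflTransGen adj x y) {n₀ : ℕ} {A B : Set V}
    (hA : A ∈ EE adj n₀) (hB : B ∈ EE adj n₀) : Nested A B := by
  apply nested_of_not_cross
  intro hcross
  obtain ⟨φ, ψ, hA⟩ := hA
  obtain ⟨φ', ψ', hB⟩ := hB
  have mA := hA.mem_MM
  have mB := hB.mem_MM
  have fA := (MM_size mA).1
  have fB := (MM_size mB).1
  have fA' := (fin_compl hsym A).mpr fA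
  have fB' := (fin_compl hsym B).mpr fB
  obtain ⟨c1, c1'⟩ := corner1 htight hsym hcon mA mB hcross
  obtain ⟨c2, c2'⟩ := corner2 htight hsym hcon mA mB hcross
  have c3 := c1; rw [add_comm] at c3
  have c3' := c1'; rw [add_comm] at c3'
  have c4 := c2; rw [add_comm] at c4
  have c4' := c2'; rw [add_comm] at c4'
  have eA : A ∈ φ := hA.2.1.1.2.1
  have eA' : Aᶜ ∈ ψ := hA.2.1.1.2.2
  have eB : B ∈ φ' := hB.2.1.1.2.1
  have eB' : Bᶜ ∈ ψ' := hB.2.1.1.2.2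
  -- corners separating (φ, ψ)
  have i1 : B ∈ φ → USep adj φ ψ (A ∩ B) := fun h => usep_left fA fB eA eA' h
  have i2 : Bᶜ ∈ φ → USep adj φ ψ (A ∩ Bᶜ) := fun h => usep_left fA fB' eA eA' h
  have i3 : B ∈ ψ → USep adj φ ψ (Aᶜ ∩ B) := fun h =>
    usep_right hsym fA' fB (by rw [compl_compl]; exact eA) eA' h
  have i4 : Bᶜ ∈ ψ → USep adj φ ψ (Aᶜ ∩ Bᶜ) := fun h =>
    usep_right hsym fA' fB' (by rw [compl_compl]; exact eA) eA' h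
  -- corners separating (φ', ψ')
  have j1 : A ∈ φ' → USep adj φ' ψ' (A ∩ B) := fun h => by
    rw [Set.inter_comm]; exact usep_left fB fA eB eB' h
  have j2 : Aᶜ ∈ φ' → USep adj φ' ψ' (Aᶜ ∩ B) := fun h => by
    rw [Set.inter_comm]; exact usep_left fB fA' eB eB' h
  have j3 : A ∈ ψ' → USep adj φ' ψ' (A ∩ Bᶜ) := fun h => by
    rw [Set.inter_comm]
    exact usep_right hsym fB' fA (by rw [compl_compl]; exact eB) eB' h
  have j4 : Aᶜ ∈ ψ' → USep adj φ' ψ' (Aᶜ ∩ Bᶜ) := fun h => by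
    rw [Set.inter_comm]
    exact usep_right hsym fB' fA' (by rw [compl_compl]; exact eB) eB' h
  -- forbidden pairs
  have o1 := fun h h' => no_opp hsym hA hB c1 c1' h h'
  have o2 := fun h h' => no_opp hsym hA hB c2 c2' h h'
  have o3 := fun h h' => no_opp hsym hA hB c3 c3' h h'
  have o4 := fun h h' => no_opp hsym hA hB c4 c4' h h'
  rcases hA.1.1.2 B fB with hφB | hφB
  · -- φ in A ∩ B
    rcases hB.1.2.1.2 A fA with hψA | hψA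
    · -- ψ' in A ∩ Bᶜ
      rcases hA.1.2.1.2 B fB with hψB | hψB
      · exact o4 (i3 hψB) (j3 hψA)
      · rcases hB.1.1.2 A fA with hφA | hφA
        · exact o3 (i4 hψB) (j1 hφA)
        · exact no_diag hsym hA hB c2 c2' (Or.inl ⟨fB, hφB, hψB⟩)
            (Or.inr ⟨fA', hφA, by rw [compl_compl]; exact hψA⟩) (j3 hψA) (j2 hφA)
    · exact o1 (i1 hφB) (j4 hψA)
  · -- φ in A ∩ Bᶜ
    rcases hB.1.1.2 A fA with hφA | hφA
    · rcases hA.1.2.1.2 B fB with hψB | hψB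
      · rcases hB.1.2.1.2 A fA with hψA | hψA
        · exact o4 (i3 hψB) (j3 hψA)
        · exact no_diag hsym hA hB c1 c1' (Or.inr ⟨fB', hφB, by rw [compl_compl]; exact hψB⟩)
            (Or.inl ⟨fA, hφA, hψA⟩) (j1 hφA) (j4 hψA)
      · exact o3 (i4 hψB) (j1 hφA)
    · exact o2 (i2 hφB) (j2 hφA)

theorem exists_opt {n₀ : ℕ} {φ ψ : Filter V} (h : PP adj n₀ φ ψ) : ∃ A, Opt adj n₀ φ ψ A := by
  have h' := h
  obtain ⟨_, _, A₀, hA₀, _⟩ := h'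
  obtain ⟨A₁, hA₁, hmin⟩ := (measure (fun A : Set V => (bdry adj A).ncard)).wf.has_min
    {A | Sep adj φ ψ A} ⟨A₀, hA₀⟩
  have h1 : IsMin adj φ ψ A₁ := ⟨hA₁, fun B hB => not_lt.mp (hmin B hB)⟩
  obtain ⟨A₂, hA₂, hmin₂⟩ := (measure (fun A : Set V => mu adj n₀ A)).wf.has_min
    {A | IsMin adj φ ψ A} ⟨A₁, h1⟩
  exact ⟨A₂, h, hA₂, fun B hB => not_lt.mp (hmin₂ B hB)⟩

/-- LR-2 -/
theorem nestedCuts (htight : TightFinite) : NestedCuts := by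
  intro V adj hsym hcon n₀
  refine ⟨EE adj n₀, ?_, ?_, ?_, ?_, ?_, ?_, ?_⟩
  · rintro σ hσ A ⟨φ, ψ, hA⟩
    exact ⟨_, _, hA.image hσ⟩
  · rintro A ⟨φ, ψ, hA⟩
    exact ⟨_, _, hA.swap hsym⟩
  · rintro A ⟨φ, ψ, hA⟩
    exact MM_nonempty hA.mem_MM
  · rintro A ⟨φ, ψ, hA⟩
    exact (MM_size hA.mem_MM).1
  · intro A hA B hB
    exact EE_nested htight hsym hcon hA hB
  · intro u v
    apply (MM_sep_finite htight hsym hcon n₀ u v).subset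
    rintro A ⟨⟨φ, ψ, hA⟩, hu, hv⟩
    exact ⟨hA.mem_MM, hu, hv⟩
  · rintro φ ψ h1 h2 h3 h4 ⟨A, hA1, hA2, hA3, hA4⟩
    obtain ⟨B, hB⟩ := exists_opt (adj := adj) (n₀ := n₀) (φ := φ) (ψ := ψ)
      ⟨⟨h1, h3⟩, ⟨h2, h4⟩, A, ⟨hA1, hA3, hA4⟩, hA2⟩
    exact ⟨B, ⟨φ, ψ, hB⟩, hB.2.1.1.2.1, hB.2.1.1.2.2⟩

end Pool.Agent.TH75.LR
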