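import Pool.Agent.TH60.LR.Defs

set_option autoImplicit false

namespace Pool.Agent.TH75.LR

open Pool.Agent.TH60.LR

theorem rtg_symm {V : Type} {adj : V → V → Prop} (hsym : ∀ x y, adj x y → adj y x) {x y : V}
    (h : Relation.ReflTransGen adj x y) : Relation.ReflTransGen adj y x := by
  induction h with
  | refl => exact Relation.ReflTransGen.refl
  | tail _ hbc ih => exact Relation.ReflTransGen.head (hsym _ _ hbc) ih

theorem tight_unreach {V : Type} {adj : V → V → Prop} (hsym : ∀ x y, adj x y → adj y x) {x y : V}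
    (hxy : ¬ Relation.ReflTransGen adj x y) {A : Set V} (c1 : Conn adj A) (c2 : Conn adj Aᶜ)
    (h1 : x ∈ A) (h2 : y ∉ A) : A = {z | Relation.ReflTransGen adj x z} := by
  have hA : A ⊆ {z | Relation.ReflTransGen adj x z} := by
    by_contra hcon
    obtain ⟨a, haA, ha⟩ := Set.not_subset.mp hcon
    obtain ⟨p, hp, q, hq, hpq⟩ := c1 (A ∩ {z | Relation.ReflTransGen adj x z})
      Set.inter_subset_left ⟨x, h1, Relation.ReflTransGen.refl⟩ ⟨a, haA, fun h => ha h.2⟩
    exact hq.2 ⟨hq.1, hp.2.tail hpq⟩
  have hAc : Aᶜ ⊆ {z | Relation.ReflTransGen adj y z} := by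
    by_contra hcon
    obtain ⟨a, haA, ha⟩ := Set.not_subset.mp hcon
    obtain ⟨p, hp, q, hq, hpq⟩ := c2 (Aᶜ ∩ {z | Relation.ReflTransGen adj y z})
      Set.inter_subset_left ⟨y, h2, Relation.ReflTransGen.refl⟩ ⟨a, haA, fun h => ha h.2⟩
    exact hq.2 ⟨hq.1, hp.2.tail hpq⟩
  apply Set.Subset.antisymm hA
  intro z hz
  by_contra hzA
  exact hxy (Relation.ReflTransGen.trans hz (rtg_symm hsym (hAc hzA)))

/-- LR-1 -/
theorem tightFinite : TightFinite := by
  intro V n
  induction n with
  | zero =>
    intro adj hsym x y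
    by_cases hxy : Relation.ReflTransGen adj x y
    · -- reachable
      have key : ∀ z, Relation.ReflTransGen adj x z → ∀ A : Set V,
          ¬ (Conn adj A ∧ Conn adj Aᶜ ∧ x ∈ A ∧ z ∉ A ∧ (bdry adj A).Finite ∧
            (bdry adj A).ncard ≤ 0) := by
        intro z hz
        induction hz with
        | refl =>
          rintro A ⟨_, _, h1, h2, _⟩; exact h2 h1
        | @tail w z hxw hwz ih =>
          rintro A ⟨c1, c2, h1, h2, h3, h4⟩
          by_cases hw : w ∈ A
          · have : (w, z) ∈ bdry adj A := ⟨hwz, hw, h2⟩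
            have h5 : (bdry adj A).ncard = 0 := Nat.le_zero.mp h4
            rw [Set.ncard_eq_zero h3] at h5
            rw [h5] at this; exact this
          · exact ih A ⟨c1, c2, h1, hw, h3, h4⟩
      apply Set.Finite.subset Set.finite_empty
      intro A hA
      exact key y hxy A hA
    · apply Set.Finite.subset (Set.finite_singleton {z | Relation.ReflTransGen adj x z})
      rintro A ⟨c1, c2, h1, h2, -, -⟩
      exact tight_unreach hsym hxy c1 c2 h1 h2
  | succ m IH =>
    intro adj hsym x y
    by_cases hxy : Relation.ReflTransGen adj x y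
    · have key : ∀ z, Relation.ReflTransGen adj x z →
          {A : Set V | Conn adj A ∧ Conn adj Aᶜ ∧ x ∈ A ∧ z ∉ A ∧ (bdry adj A).Finite ∧
            (bdry adj A).ncard ≤ m + 1}.Finite := by
        intro z hz
        induction hz with
        | refl =>
          apply Set.Finite.subset Set.finite_empty
          rintro A ⟨_, _, h1, h2, _⟩; exact h2 h1
        | @tail w z hxw hwz ih =>
          let adj' : V → V → Prop := fun a b => adj a b ∧ (a, b) ≠ (w, z) ∧ (b, a) ≠ (w, z)
          have hsym' : ∀ a b, adj' a b → adj' b a := fun a b h => ⟨hsym _ _ h.1, h.2.2, h.2.1⟩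
          have hfin := IH adj' hsym' w z
          apply (ih.union hfin).subset
          rintro A ⟨c1, c2, h1, h2, h3, h4⟩
          by_cases hw : w ∈ A
          · right
            have hsub : bdry adj' A ⊆ bdry adj A \ {(w, z)} := by
              rintro ⟨a, b⟩ ⟨h, ha, hb⟩
              exact ⟨⟨h.1, ha, hb⟩, h.2.1⟩
            have hmem : (w, z) ∈ bdry adj A := ⟨hwz, hw, h2⟩
            have hcard : (bdry adj A \ {(w, z)}).ncard = (bdry adj A).ncard - 1 :=
              Set.ncard_sdiff_singleton_of_mem hmem
            refine ⟨?_, ?_, hw, h2, (h3.sdiff).subset hsub, ?_⟩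
            · intro B hB hBne hABne
              obtain ⟨p, hp, q, hq, hpq⟩ := c1 B hB hBne hABne
              refine ⟨p, hp, q, hq, hpq, ?_, ?_⟩
              · intro h; rw [Prod.mk.injEq] at h; exact h2 (h.2 ▸ hq.1)
              · intro h; rw [Prod.mk.injEq] at h; exact h2 (h.2 ▸ hB hp)
            · intro B hB hBne hABne
              obtain ⟨p, hp, q, hq, hpq⟩ := c2 B hB hBne hABne
              refine ⟨p, hp, q, hq, hpq, ?_, ?_⟩
              · intro h; rw [Prod.mk.injEq] at h; exact hB hp (h.1 ▸ hw)
              · intro h; rw [Prod.mk.injEq] at h; exact hq.1 (h.1 ▸ hw)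
            · have := Set.ncard_le_ncard hsub h3.sdiff
              omega
          · left
            exact ⟨c1, c2, h1, hw, h3, h4⟩
      exact key y hxy
    · apply Set.Finite.subset (Set.finite_singleton {z | Relation.ReflTransGen adj x z})
      rintro A ⟨c1, c2, h1, h2, -, -⟩
      exact tight_unreach hsym hxy c1 c2 h1 h2

end Pool.Agent.TH75.LR
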